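import Mathlib

set_option autoImplicit false

/-! # The data of `h ^ c ∏_t F_t ^ a_t` -/

namespace Pool.Agent.R852.RT

open MvPolynomial

variable {σ T I : Type} {κ : T → Type}

/-- The index sets of the generators of the ideal `(h)` (for `none`) and the ideals `I_t`. -/
def kO (κ : T → Type) : Option T → Type
  | none => Unit
  | some t => κ t

instance [∀ t, Fintype (κ t)] : ∀ t, Fintype (kO κ t)
  | none => inferInstanceAs (Fintype Unit)
  | some t => inferInstanceAs (Fintype (κ t))

instance [∀ t, DecidableEq (κ t)] : ∀ t, DecidableEq (kO κ t)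
  | none => inferInstanceAs (DecidableEq Unit)
  | some t => inferInstanceAs (DecidableEq (κ t))

/-- The generators of the ideal `(h)` (for `none`) and the ideals `I_t`. -/
def gO (h : MvPolynomial σ ℂ) (g : (t : T) → κ t → MvPolynomial σ ℂ) :
    (t : Option T) → kO κ t → MvPolynomial σ ℂ
  | none => fun _ => h
  | some t => g t

/-- The exponents `c` (for `none`) and `a t`. -/
def aO (c : ℕ) (a : T → ℕ) : Option T → ℕ
  | none => c
  | some t => a t

/-- `ν`: `k i + 1` for the divisors `E_i`, and `1` for the strict transforms of the forms -/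
def nuH (T : Type) (k : I → ℕ) : I ⊕ T → ℕ := Sum.elim (fun i => k i + 1) fun _ => 1

/-- The multiplicities of `h ^ c ∏_t F_t ^ a_t`: `c ord_{E_i} h + ∑_t a_t ord_{E_i} I_t` along `E_i`, and
`a_t` along the strict transform of `F_t = 0`. -/
def mulH [Fintype T] (c : ℕ) (a : T → ℕ) (m : I → ℕ) (l : I → T → ℕ) : I ⊕ T → ℕ :=
  Sum.elim (fun i => c * m i + ∑ t, a t * l i t) a


end Pool.Agent.R852.RT
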