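import Pool.Agent.R852.RT.Main

set_option autoImplicit false

/-! # The statement for MP_b22d1f -/

namespace Pool.Agent.R852.RT

open MvPolynomial Pool.Agent.TH192.DT Pool.Agent.Y230.TH Pool.Agent.R852.TP Pool.Agent.R852.RT
  Pool.Agent.W574.SM
open Pool.Agent.H628R4.TP (IsBFunction)
open Pool.Agent.Y228.RR (FromRees)

theorem last :
    (∀ {σ T I : Type} [Fintype σ] [DecidableEq σ] [Fintype T] [DecidableEq T] [Nonempty T]
      [Fintype I] {κ : T → Type} [∀ t, Fintype (κ t)] [∀ t, DecidableEq (κ t)] (c : ℕ) (a : T → ℕ)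
      (h : MvPolynomial σ ℂ) (g : (t : T) → κ t → MvPolynomial σ ℂ) (_ : ∀ t, 0 < a t)
      (_ : h ≠ 0) (_ : ∀ t, ∃ j, g t j ≠ 0) (k m : I → ℕ) (l : I → T → ℕ)
      (χ : Finset (I ⊕ T) → ℤ) (d : ℕ)
      (_ : ∀ i, 0 < c * m i + ∑ t, a t * l i t → d ∣ c * m i + ∑ t, a t * l i t →
        (∃ J, χ J ≠ 0 ∧ Sum.inl i ∈ J) →
        FromRees (gO h g) (aO c a) 1 (k i + 1) (c * m i + ∑ t, a t * l i t))
      (s₀ : ℂ) (_ : (twZ d (nuH T k) (mulH c a m l) χ).denom.eval s₀ = 0) (b : Polynomial ℂ)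
      (_ : IsBFunction ((formFam a (h ^ c) g).f 0) b), b.eval s₀ = 0) ∧
    (∀ {σ T : Type} [Fintype T] [DecidableEq T] [Nonempty T] {κ : T → Type}
      [∀ t, Fintype (κ t)] (c : ℕ) (a : T → ℕ)
      (h : MvPolynomial σ ℂ) (g : (t : T) → κ t → MvPolynomial σ ℂ) (_ : ∀ t, 0 < a t)
      (Z : RatFunc ℂ) (_ : TPw WeakAtP WeakHyp false (genFam a (h ^ c) g) Z) (d : ℕ)
      (Zd : RatFunc ℂ) (_ : (∀ t, d ∣ a t) → d ∣ c ∧ Zd = Z * ∏ t, fac (a t) 1)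
      (_ : (¬ ∀ t, d ∣ a t) → Zd = 0) (s₀ : ℂ)
      (_ : Zd.denom.eval s₀ = 0) (b : Polynomial ℂ)
      (_ : IsBFunction ((formFam a (h ^ c) g).f 0) b), ∃ i : ℕ, b.eval (s₀ - i) = 0) :=
  ⟨fun c a h g ha hh hg k m l χ d hE s₀ hs b hb => tw_h c a h g ha hh hg k m l χ d hE s₀ hs b hb,
    fun c a h g ha Z hA d Zd h1 h2 s₀ hs b hb => by
      classical
      exact tw_class c a h g ha Z hA d Zd h1 h2 s₀ hs b hb⟩

end Pool.Agent.R852.RT
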