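import Pool.Agent.R852.TP.Fin
import Pool.Agent.Y228.RR.Top
import Pool.Agent.R852.RT.Defs

set_option autoImplicit false
set_option linter.unusedSectionVars false
set_option linter.unusedVariables false

/-! # Twisted topological zeta functions of `h ^ c ∏_t F_t ^ a_t` -/

namespace Pool.Agent.R852.RT

open MvPolynomial Pool.Agent.W574.SM Pool.Agent.W574.RO Pool.Agent.Y229
open Pool.Agent.W574.HS Pool.Agent.TH192.DT Pool.Agent.W574.LM Pool.Agent.Y231.RF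
open Pool.Agent.R852.TP Pool.Agent.Y230.TH
open Pool.Agent.Y228.RR (FromRees root_of_from pole_topZ')
open Pool.Agent.H628R4.TP (IsBFunction)

variable {σ T I : Type} [Fintype T] [DecidableEq T] {κ : T → Type} [∀ t, Fintype (κ t)]
  [∀ t, DecidableEq (κ t)]

variable (c : ℕ) (a : T → ℕ) (h : MvPolynomial σ ℂ) (g : (t : T) → κ t → MvPolynomial σ ℂ)

/-- the index sets of the generators of the two products -/
def eO : ((q : Σ t, Fin (aO c a t)) → kO κ q.1) ≃ ((q : Σ t, Fin (a t)) → κ q.1) where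
  toFun J q := J ⟨some q.1, q.2⟩
  invFun J q := match q with
    | ⟨none, _⟩ => (() : Unit)
    | ⟨some t, i⟩ => J ⟨t, i⟩
  left_inv J := by
    funext q
    rcases q with ⟨t, i⟩
    cases t with
    | none => rfl
    | some t => rfl
  right_inv J := rfl

theorem prod_eO (J : (q : Σ t, Fin (aO c a t)) → kO κ q.1) :
    (genFam a (h ^ c) g).f (eO c a J) = prodFam (fun q : Σ t, Fin (aO c a t) => gO h g q.1) J := by
  change h ^ c * ∏ q : Σ t, Fin (a t), g q.1 (J ⟨some q.1, q.2⟩) =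
    ∏ q : Σ t, Fin (aO c a t), gO h g q.1 (J q)
  rw [Fintype.prod_sigma, Fintype.prod_sigma, Fintype.prod_option]
  congr 1
  change h ^ c = ∏ i : Fin c, h
  simp

/-- the roots of the ideal from Rees divisors -/
theorem fo_of_from [Fintype σ] [DecidableEq σ] (ν N : ℕ) (hN : 0 < N)
    (hR : FromRees (gO h g) (aO c a) 1 ν N) : FoG (genFam a (h ^ c) g) (-(ν : ℂ) / N) := by
  classical
  have h1 : FoG ⟨σ, _, prodFam fun q : Σ t, Fin (aO c a t) => gO h g q.1⟩ (-(ν : ℂ) / N) := by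
    intro b hb
    exact root_of_from (aO c a) (gO h g) b 1 (isLocEq_one _ b hb) ν N hN hR
  refine isForcing_global.equiv _ (genFam a (h ^ c) g) (Equiv.refl σ) (eO c a) (fun J => ?_) _ h1
  rw [prod_eO]
  exact (rename_id_apply _).symm

/-- **Global topological zeta functions.** -/
theorem top_h [Fintype σ] [DecidableEq σ] [Fintype I] [Nonempty T] (ha : ∀ t, 0 < a t)
    (hh : h ≠ 0) (hg : ∀ t, ∃ j, g t j ≠ 0) (k : I → ℕ) (m : I → ℕ) (l : I → T → ℕ)
    (χ : Finset (I ⊕ T) → ℤ)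
    (hE : ∀ i, 0 < c * m i + ∑ t, a t * l i t → (∃ J, χ J ≠ 0 ∧ Sum.inl i ∈ J) →
      FromRees (gO h g) (aO c a) 1 (k i + 1) (c * m i + ∑ t, a t * l i t))
    (s₀ : ℂ) (hs : (topZ (nuH T k) (mulH c a m l) χ).denom.eval s₀ = 0)
    (b : Polynomial ℂ) (hb : IsBFunction ((formFam a (h ^ c) g).f 0) b) : b.eval s₀ = 0 := by
  classical
  have hν : ∀ x : I ⊕ T, 0 < nuH T k x := by
    rintro (i | t)
    · exact Nat.succ_pos _
    · exact one_pos
  obtain ⟨t0⟩ := (inferInstance : Nonempty T)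
  obtain ⟨b', e, h2⟩ := Pool.Agent.R852.PP.functionalEq_strong a (h ^ c) g (pow_ne_zero c hh) hg t0
    (ha t0).ne' b hb
  obtain ⟨J, hJ, x, hx, hN, rfl⟩ := pole_topZ' _ _ χ hν s₀ hs
  rw [e, Polynomial.eval_mul]
  rcases x with i | t
  · refine mul_eq_zero_of_right _ ?_
    exact fo_of_from c a h g _ _ hN (hE i hN ⟨J, hJ, hx⟩) b' h2
  · refine mul_eq_zero_of_left ?_ _
    have h3 := one_le_cntR' a ha t (-(1 + ((0 : ℕ) : ℂ)) / a t) rfl
    have h4 := (pow_dvd_pow _ h3).trans (Pool.Agent.R852.PP.cntR_dvd a _)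
    rw [pow_one, Polynomial.dvd_iff_isRoot] at h4
    have e1 : -(1 + ((0 : ℕ) : ℂ)) / a t = -((nuH T k (Sum.inr t) : ℕ) : ℂ) /
        (mulH c a m l (Sum.inr t) : ℕ) := by
      change _ = -((1 : ℕ) : ℂ) / (a t : ℕ)
      simp
    rw [← e1]
    exact h4

/-- **Twisted topological zeta functions.** -/
theorem tw_h [Fintype σ] [DecidableEq σ] [Fintype I] [Nonempty T] (ha : ∀ t, 0 < a t)
    (hh : h ≠ 0) (hg : ∀ t, ∃ j, g t j ≠ 0) (k : I → ℕ) (m : I → ℕ) (l : I → T → ℕ)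
    (χ : Finset (I ⊕ T) → ℤ) (d : ℕ)
    (hE : ∀ i, 0 < c * m i + ∑ t, a t * l i t → d ∣ c * m i + ∑ t, a t * l i t →
      (∃ J, χ J ≠ 0 ∧ Sum.inl i ∈ J) →
      FromRees (gO h g) (aO c a) 1 (k i + 1) (c * m i + ∑ t, a t * l i t))
    (s₀ : ℂ) (hs : (twZ d (nuH T k) (mulH c a m l) χ).denom.eval s₀ = 0)
    (b : Polynomial ℂ) (hb : IsBFunction ((formFam a (h ^ c) g).f 0) b) : b.eval s₀ = 0 := by
  classical
  have h1 : twZ d (nuH T k) (mulH c a m l) χ = topZ (nuH T k) (mulH c a m l)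
      (fun I => if I.Nonempty ∧ ∀ i ∈ I, d ∣ mulH c a m l i then χ I else 0) := by
    rw [twZ, topZ, Finset.sum_filter]
    refine Finset.sum_congr rfl fun I _ => ?_
    split_ifs
    · rfl
    · simp
  rw [h1] at hs
  refine top_h c a h g ha hh hg k m l _ (fun i hi hJ => ?_) s₀ hs b hb
  obtain ⟨J, hJ, hiJ⟩ := hJ
  by_cases hc : J.Nonempty ∧ ∀ i ∈ J, d ∣ mulH c a m l i
  · rw [if_pos hc] at hJ
    exact hE i hi (hc.2 _ hiJ) ⟨J, hJ, hiJ⟩
  · rw [if_neg hc] at hJ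
    exact absurd rfl hJ

/-- **The big class.** -/
theorem tw_class [Nonempty T] (ha : ∀ t, 0 < a t) (Z : RatFunc ℂ)
    (hA : TPw WeakAtP WeakHyp false (genFam a (h ^ c) g) Z) (d : ℕ) (Zd : RatFunc ℂ)
    (h1 : (∀ t, d ∣ a t) → d ∣ c ∧ Zd = Z * ∏ t, fac (a t) 1) (h2 : (¬ ∀ t, d ∣ a t) → Zd = 0)
    (s₀ : ℂ) (hs : Zd.denom.eval s₀ = 0) (b : Polynomial ℂ)
    (hb : IsBFunction ((formFam a (h ^ c) g).f 0) b) : ∃ i : ℕ, b.eval (s₀ - i) = 0 := by
  by_cases h4 : ∀ t, d ∣ a t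
  · rw [(h1 h4).2] at hs
    exact tp_weak _ _ (TPw.hyp _ _ (TPw.form σ T κ a ha (h ^ c) g Z hA)) b hb s₀ hs
  · rw [h2 h4, RatFunc.denom_zero, Polynomial.eval_one] at hs
    exact absurd hs one_ne_zero

end Pool.Agent.R852.RT
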